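import Pool.Agent.Helper60.KS.StG
import Pool.Agent.Helper61.KS.Collision
import Pool.Agent.Helper79.PNT.Main

/-! Project KS, design D5: class 3.  Cells without numbers `q m`, `m` prime of size `X^b`, from the poor windows at
level `X^(1-b)` (collision lemma). -/

set_option autoImplicit false
open Filter Topology
open scoped Classical

namespace Pool.Agent.Helper29.KD

open Pool.Agent.Helper60.KS (ec ecw npr CountW)

/-- primes in `(2^m, 2·2^m]` -/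
noncomputable def PMx (m : ℕ) : Finset ℕ := (Finset.Ioc (2 ^ m) (2 * 2 ^ m)).filter Nat.Prime

/-- number of pairs `(m, q)`, `q` prime, `m ∈ PMx μ`, `m q` in the `j`-th cell of length `2^e` of `[2^k, 2^(k+1))` -/
noncomputable def nEx (μ k e j : ℕ) : ℕ :=
  ((PMx μ ×ˢ Finset.range (2 ^ (k + 1))).filter (fun p => p.2.Prime ∧ 2 ^ k + j * 2 ^ e ≤ p.1 * p.2 ∧
    p.1 * p.2 < 2 ^ k + (j + 1) * 2 ^ e)).card

/-- at most `2^(U k)` cells of length `2^⌊k(1/2-d)⌋` contain fewer than `c0 2^e / k^2` numbers `q m`, `m` prime in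
`(2^(em k), 2·2^(em k)]` -/
def CountEx (em : ℕ → ℕ) (U : ℝ) : Prop := ∃ d0 : ℝ, 0 < d0 ∧ ∀ d : ℝ, 0 < d → d ≤ d0 → ∃ c0 : ℝ, 0 < c0 ∧
  ∃ K : ℕ, ∀ k : ℕ, K ≤ k → (((Finset.range (2 ^ (k - ec d k))).filter (fun j =>
    (nEx (em k) k (ec d k) j : ℝ) < c0 * 2 ^ ec d k / (k : ℝ) ^ 2)).card : ℝ) ≤ (2 : ℝ) ^ (U * (k : ℝ))

/-! ### Chebyshev for dyadic intervals -/

theorem card_PMx : ∃ K : ℕ, ∀ μ : ℕ, K ≤ μ → (2 : ℝ) ^ μ / (2 * (μ + 1)) ≤ (PMx μ).card := by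
  have h := Pool.Agent.Helper79.PNT.theta_tendsto
  rw [Metric.tendsto_atTop] at h
  obtain ⟨N, hN⟩ := h (1/10) (by norm_num)
  obtain ⟨K, hK⟩ := exists_nat_ge N
  refine ⟨K + 1, fun μ hμ => ?_⟩
  have hpow : ∀ n : ℕ, (n : ℝ) ≤ (2 : ℝ) ^ n := fun n => by
    exact_mod_cast (Nat.lt_two_pow_self (n := n)).le
  have h1 : N ≤ (2 : ℝ) ^ μ := by
    refine hK.trans (le_trans ?_ (hpow μ))
    have : K ≤ μ := by omega
    exact_mod_cast this
  have hM : (0 : ℝ) < (2 : ℝ) ^ μ := by positivity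
  have a1 := hN _ h1
  have a2 := hN (2 * 2 ^ μ) (by linarith)
  rw [Real.dist_eq, abs_lt] at a1 a2
  have b1 : Chebyshev.theta ((2 : ℝ) ^ μ) ≤ 1.1 * 2 ^ μ := by
    have := a1.2
    rw [sub_lt_iff_lt_add, div_lt_iff₀ hM] at this
    linarith
  have b2 : 0.9 * (2 * 2 ^ μ) ≤ Chebyshev.theta (2 * (2 : ℝ) ^ μ) := by
    have := a2.1
    rw [lt_sub_iff_add_lt, lt_div_iff₀ (by positivity)] at this
    linarith
  -- difference of theta
  have hth : Chebyshev.theta (2 * (2 : ℝ) ^ μ) - Chebyshev.theta ((2 : ℝ) ^ μ) = ∑ p ∈ PMx μ, Real.log p := by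
    have e1 : (2 * (2 : ℝ) ^ μ) = ((2 * 2 ^ μ : ℕ) : ℝ) := by push_cast; ring
    have e2 : ((2 : ℝ) ^ μ) = ((2 ^ μ : ℕ) : ℝ) := by push_cast; ring
    rw [e1, e2, Chebyshev.theta_eq_sum_Icc, Chebyshev.theta_eq_sum_Icc, Nat.floor_natCast, Nat.floor_natCast, PMx]
    have hd : (Finset.Icc 0 (2 * 2 ^ μ)).filter Nat.Prime
        = ((Finset.Icc 0 (2 ^ μ)).filter Nat.Prime) ∪ ((Finset.Ioc (2 ^ μ) (2 * 2 ^ μ)).filter Nat.Prime) := by
      ext x
      simp only [Finset.mem_filter, Finset.mem_Icc, Finset.mem_union, Finset.mem_Ioc]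
      constructor
      · rintro ⟨⟨h1, h2⟩, h3⟩
        rcases le_or_gt x (2 ^ μ) with h | h
        · exact Or.inl ⟨⟨h1, h⟩, h3⟩
        · exact Or.inr ⟨⟨h, h2⟩, h3⟩
      · rintro (⟨⟨h1, h2⟩, h3⟩ | ⟨⟨h1, h2⟩, h3⟩)
        · exact ⟨⟨h1, by omega⟩, h3⟩
        · exact ⟨⟨by omega, h2⟩, h3⟩
    rw [hd, Finset.sum_union]
    · ring
    · rw [Finset.disjoint_left]
      intro x hx hx'
      simp only [Finset.mem_filter, Finset.mem_Icc, Finset.mem_Ioc] at hx hx'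
      omega
  have hle : ∑ p ∈ PMx μ, Real.log p ≤ ((PMx μ).card : ℝ) * (μ + 1) := by
    rw [← nsmul_eq_mul, ← Finset.sum_const]
    refine Finset.sum_le_sum (fun p hp => ?_)
    rw [PMx, Finset.mem_filter, Finset.mem_Ioc] at hp
    have hp0 : (0 : ℝ) < p := by exact_mod_cast hp.2.pos
    have h2 : (p : ℝ) ≤ 2 ^ (μ + 1) := by
      rw [pow_succ]
      have := hp.1.2
      have : (p : ℝ) ≤ ((2 * 2 ^ μ : ℕ) : ℝ) := by exact_mod_cast this
      push_cast at this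
      linarith
    calc Real.log p ≤ Real.log (2 ^ (μ + 1)) := Real.log_le_log hp0 h2
      _ = (μ + 1 : ℕ) * Real.log 2 := by rw [Real.log_pow]
      _ ≤ (μ + 1 : ℕ) * 1 := by
        apply mul_le_mul_of_nonneg_left _ (Nat.cast_nonneg _)
        have := Real.log_two_lt_d9
        linarith
      _ = (μ : ℝ) + 1 := by push_cast; ring
  have : (0 : ℝ) < (μ : ℝ) + 1 := by positivity
  rw [div_le_iff₀ (by positivity)]
  nlinarith

/-! ### windows -/

/-- consecutive cells -/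
theorem sum_npr (L e i0 n : ℕ) : ∑ i ∈ Finset.range n, npr L e (i0 + i)
    = ((Finset.Ico (2 ^ L + i0 * 2 ^ e) (2 ^ L + (i0 + n) * 2 ^ e)).filter Nat.Prime).card := by
  induction n with
  | zero => simp
  | succ n ih =>
    rw [Finset.sum_range_succ, ih, npr]
    have hd : (Finset.Ico (2 ^ L + i0 * 2 ^ e) (2 ^ L + (i0 + (n + 1)) * 2 ^ e)).filter Nat.Prime
        = ((Finset.Ico (2 ^ L + i0 * 2 ^ e) (2 ^ L + (i0 + n) * 2 ^ e)).filter Nat.Prime) ∪
          ((Finset.Ico (2 ^ L + (i0 + n) * 2 ^ e) (2 ^ L + (i0 + n + 1) * 2 ^ e)).filter Nat.Prime) := by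
      have e1 : 2 ^ L + i0 * 2 ^ e ≤ 2 ^ L + (i0 + n) * 2 ^ e :=
        Nat.add_le_add_left (Nat.mul_le_mul_right _ (Nat.le_add_right _ _)) _
      have e2 : 2 ^ L + (i0 + n) * 2 ^ e ≤ 2 ^ L + (i0 + n + 1) * 2 ^ e :=
        Nat.add_le_add_left (Nat.mul_le_mul_right _ (Nat.le_add_right _ _)) _
      rw [← Finset.filter_union, Finset.Ico_union_Ico_eq_Ico e1 e2, add_assoc i0 n 1]
    rw [hd, Finset.card_union_of_disjoint]
    apply Finset.disjoint_filter_filter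
    exact Finset.Ico_disjoint_Ico_consecutive _ _ _

/-- a window whose cells are all rich is rich -/
theorem window (L e' : ℕ) (v0 v1 c1 : ℝ) (hc1 : 0 ≤ c1) (hL : 0 < L) (h0 : (2 : ℝ) ^ L ≤ v0) (h1 : v1 ≤ 2 ^ (L + 1))
    (hlen : 4 * (2 : ℝ) ^ e' ≤ v1 - v0) (he : e' ≤ L)
    (hrich : ∀ i : ℕ, i < 2 ^ (L - e') → v0 ≤ 2 ^ L + (i : ℝ) * 2 ^ e' → 2 ^ L + ((i : ℝ) + 1) * 2 ^ e' ≤ v1 →
      c1 * 2 ^ e' / L ≤ npr L e' i) :
    (v1 - v0) * c1 / (2 * L) ≤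
      (((Finset.range (2 ^ (L + 1))).filter (fun q : ℕ => q.Prime ∧ v0 ≤ (q : ℝ) ∧ (q : ℝ) < v1)).card : ℝ) := by
  have ht : (0 : ℝ) < (2 : ℝ) ^ e' := by positivity
  have hL' : (0 : ℝ) < L := by exact_mod_cast hL
  set i0 := ⌈(v0 - 2 ^ L) / 2 ^ e'⌉₊ with hi0
  set i1 := ⌊(v1 - 2 ^ L) / 2 ^ e'⌋₊ with hi1
  have hA0 : 0 ≤ (v0 - 2 ^ L) / (2 : ℝ) ^ e' := div_nonneg (by linarith) ht.le
  have hA1 : 0 ≤ (v1 - 2 ^ L) / (2 : ℝ) ^ e' := div_nonneg (by linarith) ht.le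
  have e0 : (v0 - 2 ^ L) / (2 : ℝ) ^ e' ≤ i0 := Nat.le_ceil _
  have e0' : (i0 : ℝ) < (v0 - 2 ^ L) / (2 : ℝ) ^ e' + 1 := Nat.ceil_lt_add_one hA0
  have e1 : (i1 : ℝ) ≤ (v1 - 2 ^ L) / (2 : ℝ) ^ e' := Nat.floor_le hA1
  have e1' : (v1 - 2 ^ L) / (2 : ℝ) ^ e' < i1 + 1 := Nat.lt_floor_add_one _
  have hlen' : 4 ≤ (v1 - v0) / (2 : ℝ) ^ e' := by rw [le_div_iff₀ ht]; linarith
  have hsub : (v1 - v0) / (2 : ℝ) ^ e' = (v1 - 2 ^ L) / (2 : ℝ) ^ e' - (v0 - 2 ^ L) / (2 : ℝ) ^ e' := by ring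
  have hdiff : (v1 - v0) / (2 : ℝ) ^ e' / 2 ≤ (i1 : ℝ) - i0 := by linarith
  have hlt : i0 ≤ i1 := by
    have : (0 : ℝ) ≤ (i1 : ℝ) - i0 := by linarith
    have : (i0 : ℝ) ≤ i1 := by linarith
    exact_mod_cast this
  obtain ⟨n, hn⟩ := Nat.exists_eq_add_of_le hlt
  have hn' : (n : ℝ) = i1 - i0 := by rw [hn]; push_cast; ring
  have b0 : v0 ≤ 2 ^ L + (i0 : ℝ) * 2 ^ e' := by
    rw [div_le_iff₀ ht] at e0; linarith
  have b1 : 2 ^ L + (i1 : ℝ) * 2 ^ e' ≤ v1 := by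
    rw [le_div_iff₀ ht] at e1; linarith
  have hcell : ∀ i ∈ Finset.range n, c1 * 2 ^ e' / L ≤ (npr L e' (i0 + i) : ℝ) := by
    intro i hi
    rw [Finset.mem_range] at hi
    have hi' : ((i0 + i : ℕ) : ℝ) + 1 ≤ i1 := by
      have : i0 + i + 1 ≤ i1 := by omega
      exact_mod_cast this
    have hup : 2 ^ L + (((i0 + i : ℕ) : ℝ) + 1) * 2 ^ e' ≤ v1 := by
      have := mul_le_mul_of_nonneg_right hi' ht.le
      linarith
    apply hrich
    · have h2 : (((i0 + i : ℕ) : ℝ) + 1) * 2 ^ e' ≤ (2 : ℝ) ^ L := by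
        have h3 : (2 : ℝ) ^ (L + 1) = 2 ^ L + 2 ^ L := by rw [pow_succ]; ring
        linarith
      have h4 : (2 : ℝ) ^ L = 2 ^ (L - e') * 2 ^ e' := by rw [← pow_add]; congr 1; omega
      rw [h4] at h2
      have h5 := le_of_mul_le_mul_right h2 ht
      have h6 : i0 + i + 1 ≤ 2 ^ (L - e') := by exact_mod_cast h5
      omega
    · have : (i0 : ℝ) ≤ ((i0 + i : ℕ) : ℝ) := by push_cast; linarith [(Nat.cast_nonneg i : (0 : ℝ) ≤ i)]
      have := mul_le_mul_of_nonneg_right this ht.le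
      linarith
    · exact hup
  have hsum : (n : ℝ) * (c1 * 2 ^ e' / L) ≤ ∑ i ∈ Finset.range n, (npr L e' (i0 + i) : ℝ) := by
    have := Finset.sum_le_sum hcell
    rw [Finset.sum_const, Finset.card_range, nsmul_eq_mul] at this
    exact this
  have hcard : (∑ i ∈ Finset.range n, (npr L e' (i0 + i) : ℝ)) ≤
      (((Finset.range (2 ^ (L + 1))).filter (fun q : ℕ => q.Prime ∧ v0 ≤ (q : ℝ) ∧ (q : ℝ) < v1)).card : ℝ) := by
    have h := sum_npr L e' i0 n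
    have h' : (∑ i ∈ Finset.range n, (npr L e' (i0 + i) : ℝ))
        = (((Finset.Ico (2 ^ L + i0 * 2 ^ e') (2 ^ L + (i0 + n) * 2 ^ e')).filter Nat.Prime).card : ℝ) := by
      rw [← h]; push_cast; rfl
    rw [h']
    have hsubset : ((Finset.Ico (2 ^ L + i0 * 2 ^ e') (2 ^ L + (i0 + n) * 2 ^ e')).filter Nat.Prime) ⊆
        ((Finset.range (2 ^ (L + 1))).filter (fun q : ℕ => q.Prime ∧ v0 ≤ (q : ℝ) ∧ (q : ℝ) < v1)) := by
      intro q hq
      rw [Finset.mem_filter, Finset.mem_Ico] at hq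
      obtain ⟨⟨q1, q2⟩, q3⟩ := hq
      have q1' : (2 : ℝ) ^ L + i0 * 2 ^ e' ≤ q := by exact_mod_cast q1
      have q2' : (q : ℝ) < 2 ^ L + (i1 : ℝ) * 2 ^ e' := by
        rw [hn]; exact_mod_cast q2
      rw [Finset.mem_filter, Finset.mem_range]
      refine ⟨?_, q3, by linarith, by linarith⟩
      have : (q : ℝ) < 2 ^ (L + 1) := by linarith
      exact_mod_cast this
    exact_mod_cast Finset.card_le_card hsubset
  refine le_trans ?_ (hsum.trans hcard)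
  have hn2 : (v1 - v0) / (2 : ℝ) ^ e' / 2 ≤ (n : ℝ) := by rw [hn']; exact hdiff
  have hq : (v1 - v0) * c1 / (2 * L) = ((v1 - v0) / (2 : ℝ) ^ e' / 2) * (c1 * 2 ^ e' / L) := by
    field_simp
  rw [hq]
  exact mul_le_mul_of_nonneg_right hn2 (by positivity)

/-- number of primes `q` with `m q` in `[x, x+s)` -/
noncomputable def Nm (k x s m : ℕ) : ℕ :=
  ((Finset.range (2 ^ (k + 1))).filter (fun q : ℕ => q.Prime ∧ x ≤ m * q ∧ m * q < x + s)).card

theorem nEx_eq (μ k e j : ℕ) : nEx μ k e j = ∑ m ∈ PMx μ, Nm k (2 ^ k + j * 2 ^ e) (2 ^ e) m := by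
  have h : (j + 1) * 2 ^ e = j * 2 ^ e + 2 ^ e := by ring
  simp only [nEx, Nm, Finset.card_filter, Finset.sum_product, h, add_assoc]

/-- poor cells at level `L` -/
noncomputable def Poor (w d' c1 : ℝ) (L : ℕ) : Finset ℕ :=
  (Finset.range (2 ^ (L - ecw w d' L))).filter (fun i =>
    (npr L (ecw w d' L) i : ℝ) < c1 * 2 ^ ecw w d' L / L)

/-- dichotomy for one window -/
theorem dich {w d' c1 : ℝ} {k μ e x m : ℕ} (hc1 : 0 ≤ c1) (hμ : μ + 2 ≤ k)
    (hx : 2 ^ k ≤ x) (hx1 : x + 2 ^ e ≤ 2 ^ (k + 1)) (hm : 2 ^ μ < m) (hm1 : m ≤ 2 * 2 ^ μ)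
    (he : ∀ L : ℕ, (L = k - μ - 1 ∨ L = k - μ) → ecw w d' L ≤ L ∧ 16 * (2 : ℝ) ^ ecw w d' L * 2 ^ μ ≤ 2 ^ e)
    (hno : ∀ L i : ℕ, (L = k - μ - 1 ∨ L = k - μ) → i ∈ Poor w d' c1 L →
      ¬ ((x : ℝ) ≤ m * (2 ^ L + i * 2 ^ ecw w d' L) ∧ m * (2 ^ L + ((i : ℝ) + 1) * 2 ^ ecw w d' L) ≤ x + 2 ^ e)) :
    2 ^ e * c1 / (8 * 2 ^ μ * k) ≤ (Nm k x (2 ^ e) m : ℝ) := by
  have hm0 : (0 : ℝ) < m := by
    have : 0 < m := lt_of_le_of_lt (Nat.zero_le _) hm
    exact_mod_cast this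
  have hmM : ((2 : ℝ) ^ μ) < m := by exact_mod_cast hm
  have hmM1 : (m : ℝ) ≤ 2 * 2 ^ μ := by exact_mod_cast hm1
  have hM0 : (0 : ℝ) < (2 : ℝ) ^ μ := by positivity
  have hxr : (2 : ℝ) ^ k ≤ x := by exact_mod_cast hx
  have hxr1 : (x : ℝ) + 2 ^ e ≤ 2 ^ (k + 1) := by exact_mod_cast hx1
  have hs : (0 : ℝ) < (2 : ℝ) ^ e := by positivity
  have hk0 : (0 : ℝ) < k := by
    have : 0 < k := by omega
    exact_mod_cast this
  -- choose the half window
  obtain ⟨L, v0, v1, hL, hv0, hv1, hL0, hL1, hlen⟩ : ∃ (L : ℕ) (v0 v1 : ℝ), (L = k - μ - 1 ∨ L = k - μ) ∧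
      (x : ℝ) ≤ m * v0 ∧ m * v1 ≤ x + 2 ^ e ∧ (2 : ℝ) ^ L ≤ v0 ∧ v1 ≤ 2 ^ (L + 1) ∧ v1 - v0 = 2 ^ e / (2 * m) := by
    rcases le_or_gt ((2 : ℝ) ^ (k - μ)) (x / m + 2 ^ e / (2 * m)) with h | h
    · refine ⟨k - μ, x / m + 2 ^ e / (2 * m), x / m + 2 ^ e / m, Or.inr rfl, ?_, ?_, h, ?_, ?_⟩
      · have : (m : ℝ) * (x / m + 2 ^ e / (2 * m)) = x + 2 ^ e / 2 := by field_simp
        rw [this]; linarith
      · have : (m : ℝ) * (x / m + 2 ^ e / m) = x + 2 ^ e := by field_simp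
        rw [this]
      · have h2 : (x : ℝ) / m + 2 ^ e / m = (x + 2 ^ e) / m := by ring
        rw [h2, div_le_iff₀ hm0]
        have h3 : (2 : ℝ) ^ (k + 1) = 2 ^ (k - μ + 1) * 2 ^ μ := by rw [← pow_add]; congr 1; omega
        have h4 : (2 : ℝ) ^ (k - μ + 1) * 2 ^ μ ≤ 2 ^ (k - μ + 1) * m :=
          mul_le_mul_of_nonneg_left hmM.le (by positivity)
        linarith
      · field_simp; ring
    · refine ⟨k - μ - 1, x / m, x / m + 2 ^ e / (2 * m), Or.inl rfl, ?_, ?_, ?_, ?_, ?_⟩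
      · rw [mul_div_cancel₀ _ hm0.ne']
      · have : (m : ℝ) * (x / m + 2 ^ e / (2 * m)) = x + 2 ^ e / 2 := by field_simp
        rw [this]; linarith
      · rw [le_div_iff₀ hm0]
        have h3 : (2 : ℝ) ^ k = 2 ^ (k - μ - 1) * (2 * 2 ^ μ) := by
          rw [← mul_assoc, ← pow_succ, ← pow_add]; congr 1; omega
        have h4 : (2 : ℝ) ^ (k - μ - 1) * m ≤ 2 ^ (k - μ - 1) * (2 * 2 ^ μ) :=
          mul_le_mul_of_nonneg_left hmM1 (by positivity)
        linarith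
      · have h5 : k - μ - 1 + 1 = k - μ := by omega
        rw [h5]; exact h.le
      · ring
  obtain ⟨heL, hbig⟩ := he L hL
  have hLpos : 0 < L := by rcases hL with h | h <;> omega
  have hLk : (L : ℝ) ≤ k := by
    have : L ≤ k := by rcases hL with h | h <;> omega
    exact_mod_cast this
  have hLr : (0 : ℝ) < L := by exact_mod_cast hLpos
  have hlen2 : 2 ^ e / (4 * 2 ^ μ) ≤ v1 - v0 := by
    rw [hlen]
    apply div_le_div_of_nonneg_left hs.le (by positivity)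
    linarith
  have hlen4 : 4 * (2 : ℝ) ^ ecw w d' L ≤ v1 - v0 := by
    refine le_trans ?_ hlen2
    rw [le_div_iff₀ (by positivity)]
    nlinarith
  have hw := window L (ecw w d' L) v0 v1 c1 hc1 hLpos hL0 hL1 hlen4 heL (by
    intro i hi hi0 hi1
    by_contra hcon
    push Not at hcon
    apply hno L i hL
    · rw [Poor, Finset.mem_filter, Finset.mem_range]
      exact ⟨hi, hcon⟩
    · constructor
      · exact hv0.trans (mul_le_mul_of_nonneg_left hi0 hm0.le)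
      · exact (mul_le_mul_of_nonneg_left hi1 hm0.le).trans hv1)
  have hsub : ((Finset.range (2 ^ (L + 1))).filter (fun q : ℕ => q.Prime ∧ v0 ≤ (q : ℝ) ∧ (q : ℝ) < v1)) ⊆
      ((Finset.range (2 ^ (k + 1))).filter (fun q : ℕ => q.Prime ∧ x ≤ m * q ∧ m * q < x + 2 ^ e)) := by
    intro q hq
    rw [Finset.mem_filter, Finset.mem_range] at hq ⊢
    obtain ⟨q1, q2, q3, q4⟩ := hq
    refine ⟨lt_of_lt_of_le q1 (Nat.pow_le_pow_right (by norm_num) (by rcases hL with h | h <;> omega)), q2, ?_, ?_⟩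
    · have : (x : ℝ) ≤ m * q := hv0.trans (mul_le_mul_of_nonneg_left q3 hm0.le)
      exact_mod_cast this
    · have : (m : ℝ) * q < x + 2 ^ e := lt_of_lt_of_le (mul_lt_mul_of_pos_left q4 hm0) hv1
      exact_mod_cast this
  have hc : (((Finset.range (2 ^ (L + 1))).filter (fun q : ℕ => q.Prime ∧ v0 ≤ (q : ℝ) ∧ (q : ℝ) < v1)).card : ℝ) ≤
      (Nm k x (2 ^ e) m : ℝ) := by
    rw [Nm]
    exact_mod_cast Finset.card_le_card hsub
  refine le_trans ?_ (hw.trans hc)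
  calc 2 ^ e * c1 / (8 * 2 ^ μ * k) = 2 ^ e / (4 * 2 ^ μ) * c1 / (2 * k) := by
        field_simp; ring
    _ ≤ (v1 - v0) * c1 / (2 * k) := by
        apply div_le_div_of_nonneg_right _ (by positivity)
        exact mul_le_mul_of_nonneg_right hlen2 hc1
    _ ≤ (v1 - v0) * c1 / (2 * L) := by
        apply div_le_div_of_nonneg_left _ (by positivity) (by linarith)
        have : 0 ≤ v1 - v0 := le_trans (by positivity) hlen2
        positivity

/-- the collision lemma for one `k` -/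
theorem step {w d' c1 Pc : ℝ} {k μ e : ℕ} (hc1 : 0 < c1) (hμ : μ + 2 ≤ k) (hek : e ≤ k)
    (hcheb : (2 : ℝ) ^ μ / (2 * (μ + 1)) ≤ (PMx μ).card)
    (he : ∀ L : ℕ, (L = k - μ - 1 ∨ L = k - μ) → ecw w d' L ≤ L ∧ 16 * (2 : ℝ) ^ ecw w d' L * 2 ^ μ ≤ 2 ^ e)
    (hP : ((Poor w d' c1 (k - μ - 1)).card : ℝ) + (Poor w d' c1 (k - μ)).card ≤ Pc)
    (hcond : Pc * (1 + 16 * 2 ^ e * 2 ^ (2 * μ) / 2 ^ k) ≤ ((2 : ℝ) ^ μ / (4 * k)) ^ 2 / 2) :
    (((Finset.range (2 ^ (k - e))).filter (fun j =>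
      (nEx μ k e j : ℝ) < c1 / 32 * 2 ^ e / (k : ℝ) ^ 2)).card : ℝ) ≤ 40 * k * Pc / 2 ^ μ := by
  set Bad := (Finset.range (2 ^ (k - e))).filter (fun j => (nEx μ k e j : ℝ) < c1 / 32 * 2 ^ e / (k : ℝ) ^ 2)
    with hBad
  have hk0 : (0 : ℝ) < k := by
    have : 0 < k := by omega
    exact_mod_cast this
  have hM : (0 : ℝ) < (2 : ℝ) ^ μ := by positivity
  have hs : (0 : ℝ) < (2 : ℝ) ^ e := by positivity
  let Hit : ℕ → ℕ → ℕ × ℕ → Prop := fun j m p => (p.1 = k - μ - 1 ∨ p.1 = k - μ) ∧ p.2 ∈ Poor w d' c1 p.1 ∧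
    (((2 ^ k + j * 2 ^ e : ℕ) : ℝ) ≤ m * (2 ^ p.1 + p.2 * 2 ^ ecw w d' p.1) ∧
      m * (2 ^ p.1 + ((p.2 : ℝ) + 1) * 2 ^ ecw w d' p.1) ≤ ((2 ^ k + j * 2 ^ e : ℕ) : ℝ) + 2 ^ e)
  let B : ℕ → Finset ℕ := fun j => (PMx μ).filter (fun m => ∃ p, Hit j m p)
  let φ : ℕ → ℕ → ℕ × ℕ := fun j m => if h : ∃ p, Hit j m p then h.choose else (0, 0)
  have hφ : ∀ j m, m ∈ B j → Hit j m (φ j m) := by
    intro j m hm
    have h : ∃ p, Hit j m p := (Finset.mem_filter.1 hm).2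
    have : φ j m = h.choose := dif_pos h
    rw [this]
    exact h.choose_spec
  let P : Finset (ℕ × ℕ) := ((Poor w d' c1 (k - μ - 1)).image (fun i => (k - μ - 1, i))) ∪
    ((Poor w d' c1 (k - μ)).image (fun i => (k - μ, i)))
  have hPc : (P.card : ℝ) ≤ Pc := by
    refine le_trans ?_ hP
    have h1 := Finset.card_union_le ((Poor w d' c1 (k - μ - 1)).image (fun i => (k - μ - 1, i)))
      ((Poor w d' c1 (k - μ)).image (fun i => (k - μ, i)))
    have h2 : ((Poor w d' c1 (k - μ - 1)).image (fun i => (k - μ - 1, i))).card ≤ (Poor w d' c1 (k - μ - 1)).card :=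
      Finset.card_image_le
    have h3 : ((Poor w d' c1 (k - μ)).image (fun i => (k - μ, i))).card ≤ (Poor w d' c1 (k - μ)).card :=
      Finset.card_image_le
    have : P.card ≤ (Poor w d' c1 (k - μ - 1)).card + (Poor w d' c1 (k - μ)).card := by
      show (_ ∪ _ : Finset (ℕ × ℕ)).card ≤ _
      omega
    exact_mod_cast this
  have hPMx : ∀ m ∈ PMx μ, m.Prime ∧ 2 ^ μ < m ∧ m ≤ 2 * 2 ^ μ := by
    intro m hm
    rw [PMx, Finset.mem_filter, Finset.mem_Ioc] at hm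
    exact ⟨hm.2, hm.1.1, hm.1.2⟩
  -- many poor windows
  have hBcard : ∀ j ∈ Bad, (2 : ℝ) ^ μ / (4 * k) ≤ ((B j).card : ℝ) := by
    intro j hj
    rw [hBad, Finset.mem_filter, Finset.mem_range] at hj
    obtain ⟨hj1, hj2⟩ := hj
    set x := 2 ^ k + j * 2 ^ e with hxdef
    have hx1 : x + 2 ^ e ≤ 2 ^ (k + 1) := by
      have h1 : (j + 1) * 2 ^ e ≤ 2 ^ (k - e) * 2 ^ e := Nat.mul_le_mul_right _ hj1
      have h2 : 2 ^ (k - e) * 2 ^ e = 2 ^ k := by rw [← pow_add]; congr 1; omega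
      have h3 : (j + 1) * 2 ^ e = j * 2 ^ e + 2 ^ e := by ring
      rw [hxdef, pow_succ]
      omega
    have hsplit := Finset.card_filter_add_card_filter_not (s := PMx μ) (fun m => ∃ p, Hit j m p)
    set G := (PMx μ).filter (fun m => ¬ ∃ p, Hit j m p) with hG
    have hGn : ∀ m ∈ G, 2 ^ e * c1 / (8 * 2 ^ μ * k) ≤ (Nm k x (2 ^ e) m : ℝ) := by
      intro m hm
      rw [hG, Finset.mem_filter] at hm
      obtain ⟨hm1, hm2⟩ := hm
      obtain ⟨-, hm3, hm4⟩ := hPMx m hm1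
      apply dich (w := w) (d' := d') hc1.le hμ (by rw [hxdef]; omega) hx1 hm3 hm4 he
      intro L i hL hi hcon
      exact hm2 ⟨(L, i), hL, hi, hcon⟩
    have hsum : (G.card : ℝ) * (2 ^ e * c1 / (8 * 2 ^ μ * k)) ≤ (nEx μ k e j : ℝ) := by
      rw [nEx_eq]
      push_cast
      calc (G.card : ℝ) * (2 ^ e * c1 / (8 * 2 ^ μ * k)) = ∑ m ∈ G, 2 ^ e * c1 / (8 * 2 ^ μ * k) := by
            rw [Finset.sum_const, nsmul_eq_mul]
        _ ≤ ∑ m ∈ G, (Nm k x (2 ^ e) m : ℝ) := Finset.sum_le_sum hGn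
        _ ≤ ∑ m ∈ PMx μ, (Nm k x (2 ^ e) m : ℝ) := by
            apply Finset.sum_le_sum_of_subset_of_nonneg (Finset.filter_subset _ _)
            intro i _ _
            exact Nat.cast_nonneg _
    have hGcard : (G.card : ℝ) ≤ 2 ^ μ / (4 * k) := by
      have h1 : (G.card : ℝ) * (2 ^ e * c1 / (8 * 2 ^ μ * k)) ≤ c1 / 32 * 2 ^ e / (k : ℝ) ^ 2 := hsum.trans hj2.le
      have h2 : c1 / 32 * 2 ^ e / (k : ℝ) ^ 2 = (2 ^ μ / (4 * k)) * (2 ^ e * c1 / (8 * 2 ^ μ * k)) := by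
        field_simp; ring
      rw [h2] at h1
      exact le_of_mul_le_mul_right h1 (by positivity)
    have hle : (2 : ℝ) ^ μ / (2 * k) ≤ (PMx μ).card := by
      refine le_trans ?_ hcheb
      apply div_le_div_of_nonneg_left hM.le (by positivity)
      have : μ + 1 ≤ k := by omega
      have : (μ : ℝ) + 1 ≤ k := by exact_mod_cast this
      linarith
    have hadd : ((B j).card : ℝ) + G.card = (PMx μ).card := by exact_mod_cast hsplit
    have : (2 : ℝ) ^ μ / (2 * k) = 2 ^ μ / (4 * k) + 2 ^ μ / (4 * k) := by field_simp; ring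
    linarith
  have hXe : (2 : ℝ) ^ (2 * μ) = 2 ^ μ * 2 ^ μ := by rw [two_mul, pow_add]
  have key := Pool.Agent.Helper61.KS.collision Bad (fun j => ((2 ^ k + j * 2 ^ e : ℕ) : ℝ)) (PMx μ) B P φ
    (X := 2 ^ k) (lam := 2 ^ e) (Q := 2 ^ μ) (ρ := 2 ^ e / 2 ^ μ) (π0 := 2 ^ μ / (4 * k))
    (by positivity) hs (one_le_pow₀ (by norm_num)) (by positivity) (by positivity)
    (by
      intro r hr
      obtain ⟨h1, h2, h3⟩ := hPMx r hr
      refine ⟨h1, ?_, ?_⟩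
      · exact_mod_cast h2.le
      · exact_mod_cast h3)
    (fun j _ => Finset.filter_subset _ _)
    (by
      intro j _
      push_cast
      have : (0 : ℝ) ≤ (j : ℝ) * 2 ^ e := by positivity
      linarith)
    (by
      intro i _ j _ hij
      push_cast
      have h1 : (1 : ℝ) ≤ |(i : ℝ) - j| := by
        have h2 : (i : ℤ) - j ≠ 0 := by omega
        have h3 := Int.one_le_abs h2
        have : ((1 : ℤ) : ℝ) ≤ ((|(i : ℤ) - j| : ℤ) : ℝ) := by exact_mod_cast h3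
        push_cast at this
        exact this
      have h4 : (2 : ℝ) ^ k + (i : ℝ) * 2 ^ e - (2 ^ k + (j : ℝ) * 2 ^ e) = ((i : ℝ) - j) * 2 ^ e := by ring
      rw [h4, abs_mul, abs_of_pos hs]
      nlinarith)
    (by
      intro j _ m hm
      obtain ⟨h1, h2, -⟩ := hφ j m hm
      show _ ∈ (_ ∪ _ : Finset (ℕ × ℕ))
      rw [Finset.mem_union, Finset.mem_image, Finset.mem_image]
      rcases h1 with h | h
      · left
        exact ⟨(φ j m).2, by rw [← h]; exact h2, by rw [← h]⟩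
      · right
        exact ⟨(φ j m).2, by rw [← h]; exact h2, by rw [← h]⟩)
    (by
      intro i _ j _ r hr r' hr' heq
      have h1 := hφ i r hr
      have h2 := hφ j r' hr'
      rw [← heq] at h2
      set p := φ i r with hp
      have hr0 : (2 : ℝ) ^ μ < r := by
        have := (hPMx r ((Finset.filter_subset _ _) hr)).2.1
        exact_mod_cast this
      have hr0' : (2 : ℝ) ^ μ < r' := by
        have := (hPMx r' ((Finset.filter_subset _ _) hr')).2.1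
        exact_mod_cast this
      have hrp : (0 : ℝ) < r := hM.trans hr0
      have hrp' : (0 : ℝ) < r' := hM.trans hr0'
      have aux : ∀ (j r : ℕ), (0 : ℝ) < r → (2 : ℝ) ^ μ < r → Hit j r p →
          0 ≤ (2 ^ p.1 + (p.2 : ℝ) * 2 ^ ecw w d' p.1) - ((2 ^ k + j * 2 ^ e : ℕ) : ℝ) / r ∧
          (2 ^ p.1 + (p.2 : ℝ) * 2 ^ ecw w d' p.1) - ((2 ^ k + j * 2 ^ e : ℕ) : ℝ) / r ≤ 2 ^ e / 2 ^ μ := by
        intro j r h0 h1 h2
        obtain ⟨-, -, h3, h4⟩ := h2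
        constructor
        · rw [sub_nonneg, div_le_iff₀ h0]
          linarith
        · have h5 : (2 ^ p.1 + (p.2 : ℝ) * 2 ^ ecw w d' p.1) ≤ (((2 ^ k + j * 2 ^ e : ℕ) : ℝ) + 2 ^ e) / r := by
            rw [le_div_iff₀ h0]
            have h6 : (0 : ℝ) ≤ r * 2 ^ ecw w d' p.1 := by positivity
            nlinarith
          have h7 : (((2 ^ k + j * 2 ^ e : ℕ) : ℝ) + 2 ^ e) / r - ((2 ^ k + j * 2 ^ e : ℕ) : ℝ) / r = 2 ^ e / r := by
            ring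
          have h8 : (2 : ℝ) ^ e / r ≤ 2 ^ e / 2 ^ μ := div_le_div_of_nonneg_left hs.le hM h1.le
          linarith
      obtain ⟨a1, a2⟩ := aux i r hrp hr0 h1
      obtain ⟨b1, b2⟩ := aux j r' hrp' hr0' h2
      rw [abs_le]
      constructor <;> linarith)
    hBcard
    (by
      refine le_trans ?_ hcond
      have h1 : 16 * ((2 : ℝ) ^ e / 2 ^ μ) * (2 ^ μ) ^ 3 / 2 ^ k = 16 * 2 ^ e * 2 ^ (2 * μ) / 2 ^ k := by
        rw [hXe]; field_simp
      rw [h1]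
      exact mul_le_mul_of_nonneg_right hPc (by positivity))
  have h5 : 1 + 4 * ((2 : ℝ) ^ e / 2 ^ μ) * 2 ^ μ / 2 ^ e = 5 := by field_simp; norm_num
  rw [h5] at key
  rw [le_div_iff₀ hM]
  have h6 : (Bad.card : ℝ) * 2 ^ μ = (Bad.card : ℝ) * (2 ^ μ / (4 * k)) * (4 * k) := by field_simp
  rw [h6]
  calc (Bad.card : ℝ) * (2 ^ μ / (4 * k)) * (4 * k) ≤ (2 * P.card * 5) * (4 * k) :=
        mul_le_mul_of_nonneg_right key (by positivity)
    _ ≤ (2 * Pc * 5) * (4 * k) := by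
        apply mul_le_mul_of_nonneg_right _ (by positivity)
        linarith
    _ = 40 * k * Pc := by ring

/-! ### asymptotics -/

theorem ev_sq (C η : ℝ) (hη : 0 < η) : ∀ᶠ k : ℕ in atTop, C * (k : ℝ) ^ 2 ≤ (2 : ℝ) ^ (η * (k : ℝ)) := by
  have hr : |(2 : ℝ) ^ (-η)| < 1 := by
    rw [abs_of_pos (by positivity)]
    exact Real.rpow_lt_one_of_one_lt_of_neg (by norm_num) (by linarith)
  have h := (tendsto_pow_const_mul_const_pow_of_abs_lt_one 2 hr).const_mul C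
  rw [mul_zero] at h
  filter_upwards [h.eventually (eventually_le_nhds (show (0 : ℝ) < 1 by norm_num))] with k hk
  have h2 : ((2 : ℝ) ^ (-η)) ^ k = ((2 : ℝ) ^ (η * (k : ℝ)))⁻¹ := by
    rw [← Real.rpow_natCast, ← Real.rpow_mul (by norm_num), ← Real.rpow_neg (by norm_num)]
    congr 1
    ring
  rw [h2, ← mul_assoc, ← div_eq_mul_inv, div_le_one (by positivity)] at hk
  exact hk

theorem ev_lin (C η : ℝ) (hη : 0 < η) : ∀ᶠ k : ℕ in atTop, C ≤ η * (k : ℝ) := by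
  have h : Tendsto (fun k : ℕ => η * (k : ℝ)) atTop atTop :=
    Tendsto.const_mul_atTop hη tendsto_natCast_atTop_atTop
  exact h.eventually_ge_atTop C

/-- **class 3**: few cells are without numbers `q m`, `m` prime of size `X^b` -/
theorem countEx_of_countW {w U b U3 : ℝ} (hb1 : 1/4 < b) (hb2 : b < 1/2) (hw : 0 < 1/2 + w) (hU : 0 ≤ U)
    (h1 : (1 - b) * (1/2 + w) < 1/2 - b) (h2 : (1 - b) * U < 1/2) (h3 : (1 - b) * U - b < U3)
    (hW : CountW w U) : CountEx (fun k => ⌊b * (k : ℝ)⌋₊) U3 := by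
  obtain ⟨d0', hd0', H⟩ := hW
  set d' := min d0' ((1/2 + w) / 2) with hd'
  have hd'pos : 0 < d' := lt_min hd0' (by linarith)
  obtain ⟨c1, hc1, K1, H1⟩ := H d' hd'pos (min_le_left _ _)
  set g := (1/2 - b) - (1 - b) * (1/2 + w) with hg
  have hg0 : 0 < g := by linarith
  obtain ⟨K2, hK2⟩ := card_PMx
  refine ⟨g / 2, by linarith, fun d hd hdle => ⟨c1 / 32, by positivity, ?_⟩⟩
  have hev : ∀ᶠ k : ℕ in atTop, (((Finset.range (2 ^ (k - ec d k))).filter (fun j =>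
    (nEx (⌊b * (k : ℝ)⌋₊) k (ec d k) j : ℝ) < c1 / 32 * 2 ^ ec d k / (k : ℝ) ^ 2)).card : ℝ) ≤
      (2 : ℝ) ^ (U3 * (k : ℝ)) := by
    filter_upwards [ev_lin (K2 + 1) b (by linarith), ev_lin 3 (1 - b) (by linarith),
      ev_lin (K1 + 1) (1 - b) (by linarith), ev_lin (5 + (1/2 + w)) (g / 2) (by linarith),
      ev_sq (512 * 2 ^ U) (2 * b - (1 - b) * U) (by linarith), ev_sq (2048 * 2 ^ U) (1/2 - (1 - b) * U) (by linarith),
      ev_sq (160 * 2 ^ U) (U3 + b - (1 - b) * U) (by linarith), eventually_ge_atTop 1]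
      with k e1 e2 e3 e4 e5 e6 e7 e8
    set μ := ⌊b * (k : ℝ)⌋₊ with hμ
    have hk1 : (1 : ℝ) ≤ k := by exact_mod_cast e8
    have hbk : 0 ≤ b * (k : ℝ) := by positivity
    have m1 : (μ : ℝ) ≤ b * k := Nat.floor_le hbk
    have m2 : b * k < μ + 1 := Nat.lt_floor_add_one _
    have hμ2 : μ + 3 ≤ k := by
      have : (μ : ℝ) + 3 ≤ k := by linarith
      exact_mod_cast this
    have hek : ec d k ≤ k := by
      rw [ec]
      apply Nat.floor_le_of_le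
      nlinarith
    have hekr : (ec d k : ℝ) ≤ k / 2 := by
      rw [ec]
      rcases le_or_gt 0 ((k : ℝ) * (1/2 - d)) with h | h
      · refine (Nat.floor_le h).trans ?_
        nlinarith
      · rw [Nat.floor_of_nonpos h.le]
        push_cast; positivity
    have hekl : (k : ℝ) * (1/2 - d) < ec d k + 1 := Nat.lt_floor_add_one _
    have hg1 : (1/2 + w) < 1 := by nlinarith
    have hL : ∀ L : ℕ, (L = k - μ - 1 ∨ L = k - μ) → (L : ℝ) ≤ (1 - b) * k + 1 ∧ (1 - b) * k - 1 ≤ (L : ℝ) := by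
      intro L hL
      have c1 : ((k - μ - 1 : ℕ) : ℝ) = k - μ - 1 := by
        rw [Nat.cast_sub (by omega), Nat.cast_sub (by omega)]; push_cast; ring
      have c2 : ((k - μ : ℕ) : ℝ) = k - μ := by rw [Nat.cast_sub (by omega)]
      rcases hL with h | h
      · rw [h, c1]; constructor <;> linarith
      · rw [h, c2]; constructor <;> linarith
    have hecw : ∀ L : ℕ, (ecw w d' L : ℝ) ≤ L * (1/2 + w) := by
      intro L
      rw [ecw]
      rcases le_or_gt 0 ((L : ℝ) * (1/2 + w - d')) with h | h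
      · refine (Nat.floor_le h).trans ?_
        have : (0 : ℝ) ≤ L := Nat.cast_nonneg _
        nlinarith
      · rw [Nat.floor_of_nonpos h.le]
        push_cast; positivity
    have he : ∀ L : ℕ, (L = k - μ - 1 ∨ L = k - μ) → ecw w d' L ≤ L ∧
        16 * (2 : ℝ) ^ ecw w d' L * 2 ^ μ ≤ 2 ^ (ec d k) := by
      intro L hLL
      obtain ⟨l1, l2⟩ := hL L hLL
      have hl := hecw L
      have hL0 : (0 : ℝ) ≤ L := Nat.cast_nonneg _
      constructor
      · have : (ecw w d' L : ℝ) ≤ L := by nlinarith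
        exact_mod_cast this
      · have hsum : ecw w d' L + μ + 4 ≤ ec d k := by
          have : (ecw w d' L : ℝ) + μ + 4 ≤ ec d k := by
            have h5 : (ecw w d' L : ℝ) ≤ ((1 - b) * k + 1) * (1/2 + w) := by nlinarith
            have h6 : g / 2 * (k : ℝ) ≤ (g - d) * k := by nlinarith
            have h7 : (g - d) * (k : ℝ) = (1/2 - d) * k - b * k - (1 - b) * k * (1/2 + w) := by rw [hg]; ring
            nlinarith
          exact_mod_cast this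
        calc 16 * (2 : ℝ) ^ ecw w d' L * 2 ^ μ = 2 ^ (ecw w d' L + μ + 4) := by
              rw [pow_add, pow_add]; norm_num; ring
          _ ≤ 2 ^ (ec d k) := pow_le_pow_right₀ (by norm_num) hsum
    have hPoor : ∀ L : ℕ, (L = k - μ - 1 ∨ L = k - μ) →
        ((Poor w d' c1 L).card : ℝ) ≤ 2 ^ U * 2 ^ ((1 - b) * U * (k : ℝ)) := by
      intro L hLL
      obtain ⟨l1, l2⟩ := hL L hLL
      have hK : K1 ≤ L := by
        have : (K1 : ℝ) ≤ L := by linarith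
        exact_mod_cast this
      refine (H1 L hK).trans ?_
      rw [← Real.rpow_add (by norm_num)]
      apply Real.rpow_le_rpow_of_exponent_le (by norm_num)
      nlinarith
    have hμpow : (2 : ℝ) ^ (b * (k : ℝ)) ≤ 2 * 2 ^ μ := by
      have h5 : (2 : ℝ) * 2 ^ μ = (2 : ℝ) ^ ((μ : ℝ) + 1) := by
        rw [Real.rpow_add (by norm_num), Real.rpow_natCast, Real.rpow_one]; ring
      rw [h5]
      exact Real.rpow_le_rpow_of_exponent_le (by norm_num) m2.le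
    have hs2 := step (w := w) (d' := d') (c1 := c1) (Pc := 2 * (2 ^ U * 2 ^ ((1 - b) * U * (k : ℝ)))) (k := k) (μ := μ)
      (e := ec d k) hc1 (by omega) hek
      (hK2 μ (by
        have : ((K2 : ℕ) : ℝ) ≤ μ := by linarith
        exact_mod_cast this)) he
      (by
        have a1 := hPoor (k - μ - 1) (Or.inl rfl)
        have a2 := hPoor (k - μ) (Or.inr rfl)
        linarith)
      (by
        have hM0 : (0 : ℝ) < (2 : ℝ) ^ μ := by positivity
        have q1 : (2 : ℝ) ^ (2 * μ) = 2 ^ μ * 2 ^ μ := by rw [two_mul, pow_add]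
        have q2 : (2 : ℝ) ^ (ec d k) ≤ (2 : ℝ) ^ ((k : ℝ) / 2) := by
          rw [← Real.rpow_natCast]
          exact Real.rpow_le_rpow_of_exponent_le (by norm_num) hekr
        have q3 : (2 : ℝ) ^ k = (2 : ℝ) ^ ((k : ℝ) / 2) * (2 : ℝ) ^ ((k : ℝ) / 2) := by
          rw [← Real.rpow_add (by norm_num), ← Real.rpow_natCast]; congr 1; ring
        set W := (2 : ℝ) ^ ((1 - b) * U * (k : ℝ)) with hW
        have hW0 : 0 < W := by positivity
        have q4 : (512 * 2 ^ U * (k : ℝ) ^ 2) * W ≤ 4 * (2 ^ μ * 2 ^ μ) := by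
          calc (512 * 2 ^ U * (k : ℝ) ^ 2) * W ≤ (2 : ℝ) ^ ((2 * b - (1 - b) * U) * (k : ℝ)) * W :=
                mul_le_mul_of_nonneg_right e5 hW0.le
            _ = (2 : ℝ) ^ (b * (k : ℝ)) * (2 : ℝ) ^ (b * (k : ℝ)) := by
                rw [hW, ← Real.rpow_add (by norm_num), ← Real.rpow_add (by norm_num)]; congr 1; ring
            _ ≤ (2 * 2 ^ μ) * (2 * 2 ^ μ) := mul_le_mul hμpow hμpow (by positivity) (by positivity)
            _ = _ := by ring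
        have q5 : (2048 * 2 ^ U * (k : ℝ) ^ 2) * W ≤ (2 : ℝ) ^ ((k : ℝ) / 2) := by
          calc (2048 * 2 ^ U * (k : ℝ) ^ 2) * W ≤ (2 : ℝ) ^ ((1/2 - (1 - b) * U) * (k : ℝ)) * W :=
                mul_le_mul_of_nonneg_right e6 hW0.le
            _ = (2 : ℝ) ^ ((k : ℝ) / 2) := by
                rw [hW, ← Real.rpow_add (by norm_num)]; congr 1; ring
        set A := (2 : ℝ) ^ ((k : ℝ) / 2) with hA
        have hA0 : 0 < A := by positivity
        have q6 : 16 * (2 : ℝ) ^ (ec d k) * 2 ^ (2 * μ) / 2 ^ k ≤ 16 * (2 ^ μ * 2 ^ μ) / A := by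
          rw [q1, q3, div_le_div_iff₀ (by positivity) hA0]
          have : 16 * (2 : ℝ) ^ (ec d k) * (2 ^ μ * 2 ^ μ) * A ≤ 16 * A * (2 ^ μ * 2 ^ μ) * A := by
            gcongr
          linarith
        have hPc0 : (0 : ℝ) ≤ 2 * (2 ^ U * W) := by positivity
        refine (mul_le_mul_of_nonneg_left (add_le_add_right q6 1) hPc0).trans ?_
        have q7 : ((2 : ℝ) ^ μ / (4 * k)) ^ 2 / 2 = (2 ^ μ * 2 ^ μ) / (32 * (k : ℝ) ^ 2) := by field_simp; ring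
        rw [q7, le_div_iff₀ (by positivity)]
        set N := (2 : ℝ) ^ μ * 2 ^ μ with hN
        have hN0 : 0 < N := by positivity
        have q8 : 2 * (2 ^ U * W) * (1 + 16 * N / A) * (32 * (k : ℝ) ^ 2)
            = (512 * 2 ^ U * (k : ℝ) ^ 2 * W) / 8 + (2048 * 2 ^ U * (k : ℝ) ^ 2 * W) / 2 * (N / A) := by
          ring
        rw [q8]
        have q9 : (2048 * 2 ^ U * (k : ℝ) ^ 2 * W) / 2 * (N / A) ≤ A / 2 * (N / A) := by
          apply mul_le_mul_of_nonneg_right _ (by positivity)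
          linarith
        have q10 : A / 2 * (N / A) = N / 2 := by field_simp
        linarith)
    refine hs2.trans ?_
    rw [div_le_iff₀ (by positivity)]
    have hk2 : (k : ℝ) ≤ (k : ℝ) ^ 2 := by nlinarith
    calc 40 * (k : ℝ) * (2 * (2 ^ U * 2 ^ ((1 - b) * U * (k : ℝ))))
        ≤ (160 * 2 ^ U * (k : ℝ) ^ 2) / 2 * 2 ^ ((1 - b) * U * (k : ℝ)) := by
          have : (0 : ℝ) < 2 ^ U * 2 ^ ((1 - b) * U * (k : ℝ)) := by positivity
          nlinarith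
      _ ≤ (2 : ℝ) ^ ((U3 + b - (1 - b) * U) * (k : ℝ)) / 2 * 2 ^ ((1 - b) * U * (k : ℝ)) := by
          apply mul_le_mul_of_nonneg_right _ (by positivity)
          linarith
      _ = (2 : ℝ) ^ (U3 * (k : ℝ)) * ((2 : ℝ) ^ (b * (k : ℝ)) / 2) := by
          have : (2 : ℝ) ^ ((U3 + b - (1 - b) * U) * (k : ℝ)) * 2 ^ ((1 - b) * U * (k : ℝ)) =
              (2 : ℝ) ^ (U3 * (k : ℝ)) * (2 : ℝ) ^ (b * (k : ℝ)) := by
            rw [← Real.rpow_add (by norm_num), ← Real.rpow_add (by norm_num)]; congr 1; ring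
          linarith
      _ ≤ (2 : ℝ) ^ (U3 * (k : ℝ)) * 2 ^ μ := by
          apply mul_le_mul_of_nonneg_left _ (by positivity)
          linarith
  exact eventually_atTop.1 hev

/-- class 3 with the parameters of design D5: `b₂ = 0.3955`, at most `X^0.1042` cells -/
theorem class3 (hW : CountW (-0.3278) 0.8265) : CountEx (fun k => ⌊(0.3955 : ℝ) * (k : ℝ)⌋₊) 0.1042 :=
  countEx_of_countW (by norm_num) (by norm_num) (by norm_num) (by norm_num) (by norm_num) (by norm_num)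
    (by norm_num) hW

end Pool.Agent.Helper29.KD
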